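import Mathlib
import Pool.Agent.V11217.Poncelet3

/-!
# Circumcircle power for Poncelet triangles

Q1 holds for every pair of ellipses.
-/

namespace Pool.Agent.Results.MP_d21a88_gt.CircumcirclePower

open Pool.Agent.V11217.Poncelet Complex ComplexConjugate Affine

/-- **Q1.** For every pair of ellipses `(E, Ec)` with `Ec` strictly inside `E` there is a point
`P` whose power with respect to the circumcircle is the same for all Poncelet 3-periodics. -/
theorem result :
    ∀ E Ec : Ellipse, Ec.curve ⊆ E.inside → ∃ (P : ℂ) (κ : ℝ), ∀ T : Affine.Triangle ℝ ℂ,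
      Periodic E Ec T → T.circumsphere.power P = κ :=
  fun E Ec h => q1 E Ec h

end Pool.Agent.Results.MP_d21a88_gt.CircumcirclePower
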