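import Mathlib
import Pool.Agent.V11217.Poncelet3

/-!
# Euler circle power for Poncelet triangles

Q2 fails for an explicit non-concentric, non-axis-aligned pair.
-/

namespace Pool.Agent.Results.MP_d21a88_gt.EulerCirclePower

open Pool.Agent.V11217.Poncelet Complex ComplexConjugate Affine

noncomputable section

/-- outer ellipse `x²/25 + y²/9 = 1` -/
def E : Ellipse where
  center := 0
  A := 1/25
  B := 0
  C := 1/9
  hA := by norm_num
  hdet := by norm_num

/-- inner ellipse -/
def Ec : Ellipse where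
  center := ⟨2, 13/70⟩
  A := 8569/33600
  B := -13/240
  C := 7/12
  hA := by norm_num
  hdet := by norm_num

theorem Ec_inside : Ec.curve ⊆ E.inside := by
  intro p hp
  have h : Ec.q p = 1 := hp
  change E.q p < 1
  simp only [Ellipse.q, E, Ec, zero_re, zero_im, sub_zero] at h ⊢
  nlinarith [sq_nonneg (p.re - (1820/5881) * p.im - 16800/5881), sq_nonneg (p.im - 315/701)]

theorem tangent_of {F : Ellipse} {p q : ℂ} {a t0 : ℝ} (ha : a ≠ 0)
    (h : ∀ t : ℝ, F.q (p + t * (q - p)) - 1 = a * (t - t0)^2) : F.Tangent p q := by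
  refine ⟨p + t0 * (q - p), ⟨mem_line_iff.2 ⟨t0, rfl⟩, ?_⟩, ?_⟩
  · change F.q _ = 1
    have := h t0
    rw [sub_self] at this
    nlinarith
  · rintro x ⟨hx, hxc⟩
    obtain ⟨t, rfl⟩ := mem_line_iff.1 hx
    have h1 : F.q (p + t * (q - p)) = 1 := hxc
    have h2 := h t
    rw [h1, sub_self] at h2
    have h3 : (t - t0)^2 = 0 := by
      rcases mul_eq_zero.1 h2.symm with h4 | h4
      · exact absurd h4 ha
      · exact h4
    have h4 : t = t0 := by
      have := pow_eq_zero_iff (two_ne_zero) |>.1 h3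
      linarith
    simp only [h4]

theorem tangent_symm {F : Ellipse} {p q : ℂ} (h : F.Tangent p q) : F.Tangent q p := by
  unfold Ellipse.Tangent at h ⊢
  rw [Set.pair_comm]
  exact h

/-- an affine triangle from three points -/
theorem indep {a b c : ℂ}
    (h : (b.re - a.re) * (c.im - a.im) - (b.im - a.im) * (c.re - a.re) ≠ 0) :
    AffineIndependent ℝ ![a, b, c] := by
  rw [affineIndependent_iff_not_collinear_set]
  intro hcol
  rw [collinear_iff_of_mem (p₀ := a) (by simp)] at hcol
  obtain ⟨v, hv⟩ := hcol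
  obtain ⟨r, hr⟩ := hv b (by simp)
  obtain ⟨s, hs⟩ := hv c (by simp)
  apply h
  rw [hr, hs]
  simp
  ring

def p0 : ℂ := ⟨0, 3⟩
def p1 : ℂ := ⟨0, -3⟩
def p2 : ℂ := ⟨84/17, 39/85⟩
def r0 : ℂ := ⟨4, 9/5⟩
def r1 : ℂ := ⟨4, -9/5⟩
def r2 : ℂ := ⟨-84/17, 39/85⟩

def T1 : Affine.Triangle ℝ ℂ := ⟨![p0, p1, p2], indep (by simp [p0, p1, p2]; norm_num)⟩
def T2 : Affine.Triangle ℝ ℂ := ⟨![r0, r1, r2], indep (by simp [r0, r1, r2]; norm_num)⟩

theorem periodic_of {F G : Ellipse} {a b c : ℂ} (hi : AffineIndependent ℝ ![a, b, c])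
    (ha : F.q a = 1) (hb : F.q b = 1) (hc : F.q c = 1) (hab : G.Tangent a b)
    (hac : G.Tangent a c) (hbc : G.Tangent b c) : Periodic F G ⟨![a, b, c], hi⟩ := by
  refine ⟨?_, ?_⟩
  · intro i
    fin_cases i
    · exact ha
    · exact hb
    · exact hc
  · intro i j hij
    fin_cases i <;> fin_cases j
    · exact absurd rfl hij
    · exact hab
    · exact hac
    · exact tangent_symm hab
    · exact absurd rfl hij
    · exact hbc
    · exact tangent_symm hac
    · exact tangent_symm hbc
    · exact absurd rfl hij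

theorem T1_periodic : Periodic E Ec T1 := by
  apply periodic_of
  · simp [Ellipse.q, E, p0]; norm_num
  · simp [Ellipse.q, E, p1]; norm_num
  · simp [Ellipse.q, E, p2]; norm_num
  · apply tangent_of (a := 21) (t0 := 1/2) (by norm_num)
    intro t
    simp [Ellipse.q, Ec, p0, p1]; ring
  · apply tangent_of (a := 13125/1156) (t0 := 17/25) (by norm_num)
    intro t
    simp [Ellipse.q, Ec, p0, p2]; ring
  · apply tangent_of (a := 13125/1156) (t0 := 17/25) (by norm_num)
    intro t
    simp [Ellipse.q, Ec, p1, p2]; ring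

theorem T2_periodic : Periodic E Ec T2 := by
  apply periodic_of
  · simp [Ellipse.q, E, r0]; norm_num
  · simp [Ellipse.q, E, r1]; norm_num
  · simp [Ellipse.q, E, r2]; norm_num
  · apply tangent_of (a := 189/25) (t0 := 25/63) (by norm_num)
    intro t
    simp [Ellipse.q, Ec, r0, r1]; ring
  · apply tangent_of (a := 3055504/151725) (t0 := 425/1748) (by norm_num)
    intro t
    simp [Ellipse.q, Ec, r0, r2]; ring
  · apply tangent_of (a := 3876961/151725) (t0 := 646/1969) (by norm_num)
    intro t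
    simp [Ellipse.q, Ec, r1, r2]; ring

theorem circum_of {T : Affine.Triangle ℝ ℂ} {O : ℂ} {R : ℝ}
    (h : ∀ i, dist (T.points i) O = R) : T.circumcenter = O ∧ T.circumradius = R := by
  have htop : affineSpan ℝ (Set.range T.points) = ⊤ := by
    rw [T.independent.affineSpan_eq_top_iff_card_eq_finrank_add_one]
    simp [Complex.finrank_real_complex]
  have hmem : O ∈ affineSpan ℝ (Set.range T.points) := by rw [htop]; trivial
  exact ⟨(T.eq_circumcenter_of_dist_eq hmem h).symm, (T.eq_circumradius_of_dist_eq hmem h).symm⟩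

theorem nine_center {T : Affine.Triangle ℝ ℂ} {O : ℂ} (hO : T.circumcenter = O) :
    T.ninePointCircle.center = (T.points 0 + T.points 1 + T.points 2 - O) / 2 := by
  rw [Affine.Simplex.ninePointCircle_center, hO, T.centroid_vsub_eq, Fin.sum_univ_three]
  simp only [vsub_eq_sub, vadd_eq_add, real_smul]
  push_cast
  ring

theorem dist_of {a b : ℂ} {x : ℝ} (h : (a.re - b.re)^2 + (a.im - b.im)^2 = x) :
    dist a b = √x := by
  rw [Complex.dist_eq_re_im, h]

theorem T1_circum : T1.circumcenter = ⟨672/425, 0⟩ ∧ T1.circumradius = √(2077209/180625) := by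
  apply circum_of
  intro i
  fin_cases i
  · apply dist_of; simp [T1, p0]; norm_num
  · apply dist_of; simp [T1, p1]; norm_num
  · apply dist_of; simp [T1, p2]; norm_num

theorem T2_circum : T2.circumcenter = ⟨-128/425, 0⟩ ∧ T2.circumradius = √(3926809/180625) := by
  apply circum_of
  intro i
  fin_cases i
  · apply dist_of; simp [T2, r0]; norm_num
  · apply dist_of; simp [T2, r1]; norm_num
  · apply dist_of; simp [T2, r2]; norm_num

theorem T1_nine : T1.ninePointCircle.center = ⟨42/25, 39/170⟩ := by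
  rw [nine_center T1_circum.1]
  apply Complex.ext
  · simp [T1, p0, p1, p2]; norm_num
  · simp [T1, p0, p1, p2]; norm_num

theorem T2_nine : T2.ninePointCircle.center = ⟨42/25, 39/170⟩ := by
  rw [nine_center T2_circum.1]
  apply Complex.ext
  · simp [T2, r0, r1, r2]; norm_num
  · simp [T2, r0, r1, r2]; norm_num

/-- **Q2.** There is a non-concentric, non-axis-aligned pair admitting Poncelet 3-periodics, for which
no point has constant power with respect to the Euler circles of all Poncelet 3-periodics. -/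
theorem result :
    ∃ E Ec : Ellipse, Ec.curve ⊆ E.inside ∧ E.center ≠ Ec.center ∧
      (∀ v : ℂ, ¬ (E.IsAxisDir v ∧ Ec.IsAxisDir v)) ∧
      (∃ T : Affine.Triangle ℝ ℂ, Periodic E Ec T) ∧
      ∀ P : ℂ, ¬ ∃ κ : ℝ, ∀ T : Affine.Triangle ℝ ℂ, Periodic E Ec T →
        T.ninePointCircle.power P = κ := by
  refine ⟨E, Ec, Ec_inside, ?_, ?_, ⟨T1, T1_periodic⟩, ?_⟩
  · intro h
    have := congrArg Complex.re h
    simp [E, Ec] at this
  · rintro v ⟨⟨hv, h1⟩, ⟨-, h2⟩⟩
    simp only [E, Ec] at h1 h2
    have h3 : v.re * v.im = 0 := by linarith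
    rcases mul_eq_zero.1 h3 with h4 | h4
    · rw [h4] at h2
      have h5 : v.im^2 = 0 := by linarith
      have h6 : v.im = 0 := by simpa using h5
      exact hv (Complex.ext h4 h6)
    · rw [h4] at h2
      have h5 : v.re^2 = 0 := by linarith
      have h6 : v.re = 0 := by simpa using h5
      exact hv (Complex.ext h6 h4)
  · rintro P ⟨κ, hκ⟩
    have h1 := hκ T1 T1_periodic
    have h2 := hκ T2 T2_periodic
    rw [EuclideanGeometry.Sphere.power, T1_nine, Affine.Simplex.ninePointCircle_radius,
      T1_circum.2, div_pow, Real.sq_sqrt (by norm_num)] at h1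
    rw [EuclideanGeometry.Sphere.power, T2_nine, Affine.Simplex.ninePointCircle_radius,
      T2_circum.2, div_pow, Real.sq_sqrt (by norm_num)] at h2
    norm_num at h1 h2
    linarith

end

end Pool.Agent.Results.MP_d21a88_gt.EulerCirclePower
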